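import Pool.Agent.Work.MP_1ce445_winu.WIN3
import Pool.Agent.Work.MP_1ce445_red.Interface

set_option autoImplicit false

/-!
The bridge from the real inequality `Stmt_RED` (MP_1ce445_red) to the form used by the assembly.
-/

namespace Pool.Agent.Work.MP_1ce445_winu

open Finset Pool.Agent.Work.MP_1ce445_low Pool.Agent.Work.MP_1ce445_hub

theorem redw_of_red (h : Pool.Agent.Work.MP_1ce445_red.Stmt_RED) : Stmt_REDW := by
  intro m c a ρ d r z hm hc0 hc1 hd0 hd1 hT hrel hdc
  have hm' : (2 : ℝ) ≤ m := by exact_mod_cast hm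
  have hm0 : (0 : ℝ) < m := by linarith
  have hinv : (1 : ℝ) / m ≤ 1 / 2 := by
    apply one_div_le_one_div_of_le <;> linarith
  have hrad : 0 < dl m c * ((1 - c) - dl m c / m) := by
    rw [rad_eq m c (by omega)]
    have : 0 < (m : ℝ) - dl m c := by linarith
    positivity
  have hwin : Pool.Agent.Work.MP_1ce445_red.Win m c (dl m c) (rm m c) := by
    refine ⟨hm, hd0, by unfold dl; ring, Real.sqrt_pos.2 hrad, Real.sq_sqrt hrad.le, ?_⟩
    rcases hT with h | h | h
    · exact Or.inl h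
    · exact Or.inr (Or.inl h)
    · exact Or.inr (Or.inr ⟨h.1, hd1, h.2⟩)
  obtain ⟨y, R, hy0, hys, hR0, hR2, hle⟩ := h m c (dl m c) (rm m c) a ρ d r z hwin hrel hdc
  have hRe : hubR m c y = R := by
    unfold hubR
    have e : (1 - c) * (((m : ℝ) + 1) * (1 - c) - 1) - ∑ i, y i ^ 2 = R ^ 2 := by
      rw [hR2]; rfl
    rw [e]
    exact Real.sqrt_sq hR0.le
  refine Or.inr (Or.inr ⟨y, hy0, hys, by rw [hRe]; exact hR0, ?_⟩)
  unfold hubVal
  rw [hRe]
  exact hle

end Pool.Agent.Work.MP_1ce445_winu
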