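import Pool.Agent.Work.MP_1ce445_winu.WIN2
import Pool.Agent.Work.MP_1ce445_winu.BRI

set_option autoImplicit false

/-!
The limit function of MP_1ce445_co on `[1/2, 1)`, as one explicit function `Fhi`.
-/

namespace Pool.Agent.Work.MP_1ce445_winu

open Finset Pool.Agent.Work.MP_1ce445_low Pool.Agent.Work.MP_1ce445_hub Pool.Agent.Work.MP_1ce445_hub2

/-- The explicit function on `[1/2, 1)`: with `m = ⌊1/(1 - c)⌋` (that is `1 - 1/m ≤ c < 1 - 1/(m+1)`) it is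
`max ((1 - 1/m)^m) (hubSym m c)` if `m ≥ 3`; for `m = 2` it is `1/4` up to `c = 5/8`, and
`max (1/4) (c * max_{r1 c ≤ r ≤ r2 c} g2 c r)` for `5/8 ≤ c < 2/3`. -/
noncomputable def Fhi (c : ℝ) : ℝ :=
  if c < 5 / 8 then 1 / 4
  else if c < 2 / 3 then max (1 / 4) (c * M2 c)
  else max ((1 - 1 / (⌊1 / (1 - c)⌋₊ : ℝ)) ^ ⌊1 / (1 - c)⌋₊) (hubSym ⌊1 / (1 - c)⌋₊ c)

/-- the level of `c` -/
theorem level (c : ℝ) (h1 : 2 / 3 ≤ c) (h2 : c < 1) :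
    3 ≤ ⌊1 / (1 - c)⌋₊ ∧ 1 - 1 / (⌊1 / (1 - c)⌋₊ : ℝ) ≤ c ∧ c < 1 - 1 / ((⌊1 / (1 - c)⌋₊ : ℝ) + 1) := by
  have hD : 0 < 1 - c := by linarith
  have h3 : (3 : ℝ) ≤ 1 / (1 - c) := by
    rw [le_div_iff₀ hD]
    linarith
  have hm3 : 3 ≤ ⌊1 / (1 - c)⌋₊ := Nat.le_floor (by exact_mod_cast h3)
  have hle : (⌊1 / (1 - c)⌋₊ : ℝ) ≤ 1 / (1 - c) := Nat.floor_le (by positivity)
  have hlt : 1 / (1 - c) < (⌊1 / (1 - c)⌋₊ : ℝ) + 1 := Nat.lt_floor_add_one _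
  have hmp : (0 : ℝ) < ⌊1 / (1 - c)⌋₊ := by
    have : 0 < ⌊1 / (1 - c)⌋₊ := by omega
    exact_mod_cast this
  refine ⟨hm3, ?_, ?_⟩
  · have : 1 - c ≤ 1 / (⌊1 / (1 - c)⌋₊ : ℝ) := by
      rw [le_div_iff₀ hmp]
      rw [le_div_iff₀ hD] at hle
      linarith
    linarith
  · have : 1 / ((⌊1 / (1 - c)⌋₊ : ℝ) + 1) < 1 - c := by
      rw [div_lt_iff₀ (by linarith)]
      rw [div_lt_iff₀ hD] at hlt
      linarith
    linarith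

/-- **The limit function on `[1/2, 1)`.** -/
theorem FF_eq_Fhi (hVAL : Stmt_VAL) (hEQM : Stmt_EQM) (hSCL : Stmt_SCL) (hH : Stmt_HUB) (hH2 : Stmt_HUB2)
    (hC : Pool.Agent.Work.MP_1ce445_low.Stmt_CNT) (hFW : Stmt_FW) (hR : Pool.Agent.Work.MP_1ce445_red.Stmt_RED) (c : ℝ) (h1 : 1 / 2 ≤ c)
    (h2 : c < 1) : FF c = Fhi c := by
  have hU := redw_of_red hR
  unfold Fhi
  split_ifs with h3 h4
  · exact plat2 hVAL hEQM hSCL hC hFW hU c h1 (by linarith)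
  · exact win2 hVAL hEQM hSCL hH hC hFW hU c (not_lt.1 h3) h4
  · obtain ⟨ha, hb, hc⟩ := level c (not_lt.1 h4) h2
    exact win3 hVAL hEQM hSCL hH2 hC hFW hU _ c ha hb hc

end Pool.Agent.Work.MP_1ce445_winu
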