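import Pool.Agent.Work.MP_1ce445_winu.WINALL
import Pool.Agent.Work.MP_1ce445_red.ALL
import Pool.Agent.Work.MP_1ce445_hub.CN
import Pool.Agent.Work.MP_1ce445_hub.ED
import Pool.Agent.Work.MP_1ce445_hub.RL
import Pool.Agent.Work.MP_1ce445_hub.TB
import Pool.Agent.Work.MP_1ce445_hub.TG
import Pool.Agent.Work.MP_1ce445_hub.FW
import Pool.Agent.Work.MP_1ce445_lin.INA
import Pool.Agent.Work.MP_1ce445_upg.POW
import Pool.Agent.Work.MP_1ce445_low.AllLow
import Pool.Agent.Work.MP_1ce445_low.EQM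
import Pool.Agent.Work.MP_1ce445_low.HUB
import Pool.Agent.Work.MP_1ce445_low.HUB2

set_option autoImplicit false

/-!
The limit function of MP_1ce445_co on `[1/2, 1)`, without hypotheses.
-/

namespace Pool.Agent.Work.MP_1ce445_winu

open Pool.Agent.Work.MP_1ce445_low Pool.Agent.Work.MP_1ce445_hub

theorem h_FW : Stmt_FW :=
  stmt_FW (stmt_RL stmt_CN (stmt_ED stmt_CN)) (stmt_TB stmt_CN Pool.Agent.Work.MP_1ce445_lin.stmt_INA)
    (stmt_TG stmt_CN Pool.Agent.Work.MP_1ce445_upg.stmt_POW)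

/-- **The limit function on `[1/2, 1)`.** -/
theorem FF_eq_high (c : ℝ) (h1 : 1 / 2 ≤ c) (h2 : c < 1) : FF c = Fhi c :=
  FF_eq_Fhi stmt_VAL stmt_EQM p_SCL stmt_HUB stmt_HUB2 h_CNT h_FW Pool.Agent.Work.MP_1ce445_red.red c h1 h2

end Pool.Agent.Work.MP_1ce445_winu
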