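import Pool.Agent.Work.MP_1ce445_winu.WIN3
import Pool.Agent.Work.MP_1ce445_hub2.M2
import Pool.Agent.Work.MP_1ce445_hubg.HUBG

set_option autoImplicit false

/-!
Assembly of the window `m = 2` for MP_1ce445_co: `FF c = 1/4` for `1/2 ≤ c ≤ 1307/2000`, and
`FF c = max (1/4) (c * M2 c)` for `5/8 ≤ c < 2/3`, where `M2 c` is the maximum of the explicit concave function `g2 c`
on `[r1 c, r2 c]`.
-/

namespace Pool.Agent.Work.MP_1ce445_winu

open Finset Pool.Agent.Work.MP_1ce445_low Pool.Agent.Work.MP_1ce445_hub Pool.Agent.Work.MP_1ce445_hub2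

theorem base2 : (1 - 1 / ((2 : ℕ) : ℝ)) ^ 2 = 1 / 4 := by norm_num

/-- lower bound by the hub systems -/
theorem low2 (hVAL : Stmt_VAL) (hH : Stmt_HUB) (c : ℝ) (h1 : 5 / 8 ≤ c) (h2 : c < 2 / 3) : c * M2 c ≤ FF c := by
  obtain ⟨s, hs⟩ := m2_ex h1 h2
  rw [m2_M2 h1 h2 hs]
  have hr1 := r1_pos h1 h2
  have hr2 := r2_le h1 h2
  have key : HasVal (1 - c) (c * g2 c s) := by
    rcases hs.1.1.lt_or_eq with hlt | heq
    · obtain ⟨y, z, hz0, hzy, hyz, hsq, hpos⟩ := m2_att h1 h2 hs.1.1 hs.1.2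
      have hz := hpos hlt
      have hs0 : 0 < s := hr1.trans hlt
      have hsr : s ≤ 1977 / 10000 := hs.1.2.trans hr2
      have hv := hubg 2 (1 - c) s ![y, z] (by norm_num) hs0 (by linarith)
        (by intro i; fin_cases i <;> simp <;> linarith)
        (by simp [Fin.sum_univ_two]; linarith)
        (by
          simp only [Fin.sum_univ_two, Matrix.cons_val_zero, Matrix.cons_val_one]
          rw [hsq]; push_cast; ring)
        (by intro i; fin_cases i <;> simp <;> linarith)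
      obtain ⟨-, -, he⟩ := m2_hub h1 h2 (by linarith : (0 : ℝ) ≤ y) hz0 hyz hs0 hsq
      rw [← he]
      convert hv using 1
      simp only [Fin.prod_univ_two, Matrix.cons_val_zero, Matrix.cons_val_one]
      ring
    · have hv := hH 2 (1 - c) (by norm_num) (by linarith) (by push_cast; linarith) (by push_cast; linarith)
      rw [← heq, m2_v1 h1 h2]
      convert hv using 1
      have e : (((2 : ℕ) : ℝ) + 1) * (1 - c) - 1 = 2 - 3 * c := by push_cast; ring
      have e2 : 1 - ((2 : ℕ) : ℝ) * (1 - c) = 2 * c - 1 := by push_cast; ring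
      rw [e, e2]
      unfold r1
      push_cast
      ring
  unfold FF
  exact le_csSup ⟨1, fun w hw => (hVAL _ _ hw).2⟩ key

/-- the upper bound near `2/3` -/
theorem up2_direct (hFW : Stmt_FW) (hU : Stmt_REDW) (c : ℝ) (h1 : 1307 / 2000 ≤ c) (h2 : c < 2 / 3) :
    FF c ≤ max (1 / 4) (c * M2 c) := by
  have h58 : (5 : ℝ) / 8 ≤ c := by linarith
  have hdl : dl 2 c = 2 - 3 * c := by unfold dl; push_cast; ring
  have h := hFW 2 c (c * M2 c) le_rfl (by linarith) (by linarith) (by norm_num; linarith) ?_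
  · rwa [base2] at h
  intro a ρ d r z hrel hdc
  rw [base2]
  rcases hU 2 c a ρ d r z le_rfl (by linarith) (by linarith) (by rw [hdl]; linarith)
    (by rw [hdl]; push_cast; linarith) (Or.inl ⟨rfl, by rw [hdl]; linarith⟩) hrel hdc with h | h | ⟨y, hy0, hys, hR, h⟩
  · rw [base2] at h
    exact le_max_of_le_left h
  · apply le_max_of_le_right
    refine h.trans ?_
    have e : hubSym 2 c = c * g2 c (r2 c) := by
      rw [m2_v2 h58 h2]
      unfold hubSym r2
      have e1 : ((((2 : ℕ) : ℝ) + 1) * (1 - c) - 1) * (1 - c - (((((2 : ℕ) : ℝ) + 1) * (1 - c) - 1) / ((2 : ℕ) : ℝ)))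
          = c * (2 - 3 * c) / 2 := by push_cast; ring
      rw [e1]
      push_cast
      ring
    rw [e]
    exact mul_le_mul_of_nonneg_left (m2_le h58 h2 (r1_le_r2 h58 h2) le_rfl) (by linarith)
  · apply le_max_of_le_right
    refine h.trans ?_
    have hR2 : (hubR 2 c y) ^ 2 = (1 - c) * (2 - 3 * c) - y 0 ^ 2 - y 1 ^ 2 := by
      unfold hubR at hR ⊢
      rw [Real.sq_sqrt]
      · rw [Fin.sum_univ_two]; push_cast; ring
      · by_contra hneg
        rw [Real.sqrt_eq_zero_of_nonpos (by linarith)] at hR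
        exact lt_irrefl _ hR
    have := m2_up h58 h2 (hy0 0) (hy0 1) (by rw [← hdl, ← hys, Fin.sum_univ_two]) hR hR2
    unfold hubVal
    rw [Fin.prod_univ_two]
    exact this

/-- at the threshold the hub systems are not better than `1/4` -/
theorem thr2 : (1307 / 2000 : ℝ) * M2 (1307 / 2000) ≤ 1 / 4 := by
  have h1 : (5 : ℝ) / 8 ≤ 1307 / 2000 := by norm_num
  have h2 : (1307 / 2000 : ℝ) < 2 / 3 := by norm_num
  have hq : q2 (1307 / 2000) (r1 (1307 / 2000)) ≤ 0 := (m2_q1 h1 h2).2 (by norm_num)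
  have hopt : Opt2 (1307 / 2000) (r1 (1307 / 2000)) := ⟨⟨le_rfl, r1_le_r2 h1 h2⟩, Or.inr (Or.inl ⟨rfl, hq⟩)⟩
  rw [m2_M2 h1 h2 hopt, m2_v1 h1 h2]
  have hr : (11 / 100 : ℝ) ≤ r1 (1307 / 2000) := by
    unfold r1
    apply Real.le_sqrt_of_sq_le
    norm_num
  nlinarith

/-- the plateau -/
theorem plat2 (hVAL : Stmt_VAL) (hEQM : Stmt_EQM) (hSCL : Stmt_SCL) (hC : Stmt_CNT) (hFW : Stmt_FW)
    (hU : Stmt_REDW) (c : ℝ) (h1 : 1 / 2 ≤ c) (h2 : c ≤ 1307 / 2000) : FF c = 1 / 4 := by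
  apply le_antisymm
  · have hmono : FF c ≤ FF (1307 / 2000) :=
      hC.1 ⟨by linarith, by linarith⟩ ⟨by norm_num, by norm_num⟩ h2
    refine hmono.trans ((up2_direct hFW hU _ le_rfl (by norm_num)).trans (max_le le_rfl thr2))
  · have := base_le hVAL hEQM hSCL 2 c le_rfl (by norm_num; linarith) (by linarith)
    rwa [base2] at this

/-- **WIN2.** The exact value on `[5/8, 2/3)`. -/
theorem win2 (hVAL : Stmt_VAL) (hEQM : Stmt_EQM) (hSCL : Stmt_SCL) (hH : Stmt_HUB) (hC : Stmt_CNT)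
    (hFW : Stmt_FW) (hU : Stmt_REDW) (c : ℝ) (h1 : 5 / 8 ≤ c) (h2 : c < 2 / 3) :
    FF c = max (1 / 4) (c * M2 c) := by
  have hlow := low2 hVAL hH c h1 h2
  have hbase := base_le hVAL hEQM hSCL 2 c le_rfl (by norm_num; linarith) (by linarith)
  rw [base2] at hbase
  apply le_antisymm _ (max_le hbase hlow)
  rcases le_total c (1307 / 2000) with h | h
  · rw [plat2 hVAL hEQM hSCL hC hFW hU c (by linarith) h]
    exact le_max_left _ _
  · exact up2_direct hFW hU c h h2

end Pool.Agent.Work.MP_1ce445_winu
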