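import Pool.Agent.Work.MP_1ce445_hub.Interface
import Pool.Agent.Work.MP_1ce445_hub.Defs
import Pool.Agent.Work.MP_1ce445_hub3.HBM
import Pool.Agent.Work.MP_1ce445_hub3.PLA

set_option autoImplicit false

/-!
Assembly of the windows above `1/2` for MP_1ce445_co, levels `m ≥ 3`: `FF c = max ((1 - 1/m)^m) (hubSym m c)` for
`1 - 1/m ≤ c < 1 - 1/(m+1)`.
-/

namespace Pool.Agent.Work.MP_1ce445_winu

open Finset Pool.Agent.Work.MP_1ce445_low Pool.Agent.Work.MP_1ce445_hub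

/-- the total overlap of `m + 1` singleton elements -/
noncomputable def dl (m : ℕ) (c : ℝ) : ℝ := ((m : ℝ) + 1) * (1 - c) - 1

/-- the common part of the hub in the symmetric system -/
noncomputable def rm (m : ℕ) (c : ℝ) : ℝ := √(dl m c * ((1 - c) - dl m c / m))

/-- the part of the window in which the upper bound is proved directly -/
def Thr (m : ℕ) (c : ℝ) : Prop :=
  (m = 2 ∧ dl m c ≤ 395 / 10000) ∨ (m = 3 ∧ dl m c ≤ 97 / 10000) ∨ (4 ≤ m ∧ rm m c ≤ 1 / (2 * (m : ℝ) ^ 2))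

/-- the real inequality of the windows (helper48): the value of the real data is at most `(1 - 1/m)^m`, or the symmetric
value, or the value of some hub system -/
def Stmt_REDW : Prop :=
  ∀ (m : ℕ) (c : ℝ) (a ρ d : Fin (m + 1) → ℝ) (r z : ℝ), 2 ≤ m → 0 < c → c < 1 → 0 < dl m c →
    dl m c ≤ 1 / m → Thr m c → Rel m c a ρ d r z → (∀ j, d j ≤ c) →
    (∏ j, (c - d j)) * Real.exp (-(∑ j, ρ j + 2 * z)) ≤ (1 - 1 / (m : ℝ)) ^ m ∨
    (∏ j, (c - d j)) * Real.exp (-(∑ j, ρ j + 2 * z)) ≤ hubSym m c ∨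
      ∃ y : Fin m → ℝ, (∀ i, 0 ≤ y i) ∧ ∑ i, y i = dl m c ∧ 0 < hubR m c y ∧
        (∏ j, (c - d j)) * Real.exp (-(∑ j, ρ j + 2 * z)) ≤ hubVal m c y

theorem dl_D (m : ℕ) (c : ℝ) : 1 - c = (1 + dl m c) / ((m : ℝ) + 1) := by
  unfold dl
  have : (m : ℝ) + 1 ≠ 0 := by positivity
  field_simp
  ring

theorem rad_eq (m : ℕ) (c : ℝ) (hm : 0 < m) :
    dl m c * ((1 - c) - dl m c / m) = dl m c * (m - dl m c) / (m * (m + 1)) := by
  have hm' : (0 : ℝ) < m := by exact_mod_cast hm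
  rw [dl_D m c]
  field_simp
  ring

theorem win_bounds (m : ℕ) (c : ℝ) (hm : 2 ≤ m) (h1 : 1 - 1 / (m : ℝ) ≤ c) (h2 : c < 1 - 1 / ((m : ℝ) + 1)) :
    0 < c ∧ c < 1 ∧ 0 < dl m c ∧ dl m c ≤ 1 / m := by
  have hm' : (2 : ℝ) ≤ m := by exact_mod_cast hm
  have hm0 : (0 : ℝ) < m := by linarith
  have e1 : 1 / (m : ℝ) ≤ 1 / 2 := by
    apply one_div_le_one_div_of_le <;> linarith
  have e2 : (0 : ℝ) < 1 / ((m : ℝ) + 1) := by positivity
  refine ⟨by linarith, by linarith, ?_, ?_⟩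
  · unfold dl
    have : 1 / ((m : ℝ) + 1) < 1 - c := by linarith
    have h3 := mul_lt_mul_of_pos_left this (by positivity : (0 : ℝ) < (m : ℝ) + 1)
    have h4 : ((m : ℝ) + 1) * (1 / ((m : ℝ) + 1)) = 1 := by field_simp
    linarith
  · unfold dl
    have : 1 - c ≤ 1 / (m : ℝ) := by linarith
    have h3 := mul_le_mul_of_nonneg_left this (by positivity : (0 : ℝ) ≤ (m : ℝ) + 1)
    have h4 : ((m : ℝ) + 1) * (1 / (m : ℝ)) = 1 + 1 / m := by field_simp
    linarith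

theorem base_le (hVAL : Stmt_VAL) (hEQM : Stmt_EQM) (hSCL : Stmt_SCL) (m : ℕ) (c : ℝ) (hm : 2 ≤ m)
    (h1 : 1 - 1 / (m : ℝ) ≤ c) (h2 : c < 1) : (1 - 1 / (m : ℝ)) ^ m ≤ FF c := by
  have hv : HasVal (1 - c) ((1 - 1 / (m : ℝ)) ^ m) :=
    hSCL (1 / (m : ℝ)) (1 - c) _ (by linarith) (by linarith) (hEQM m hm)
  unfold FF
  exact le_csSup ⟨1, fun w hw => (hVAL _ _ hw).2⟩ hv

/-- direct part -/
theorem up_direct (hFW : Stmt_FW) (hU : Stmt_REDW) (m : ℕ) (c : ℝ) (hm : 3 ≤ m)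
    (h1 : 1 - 1 / (m : ℝ) ≤ c) (h2 : c < 1 - 1 / ((m : ℝ) + 1)) (hT : Thr m c) :
    FF c ≤ max ((1 - 1 / (m : ℝ)) ^ m) (hubSym m c) := by
  obtain ⟨hc0, hc1, hd0, hd1⟩ := win_bounds m c (by omega) h1 h2
  have hm' : (3 : ℝ) ≤ m := by exact_mod_cast hm
  refine hFW m c (hubSym m c) (by omega) hc0 hc1 h2.le ?_
  intro a ρ d r z hrel hdc
  rcases hU m c a ρ d r z (by omega) hc0 hc1 hd0 hd1 hT hrel hdc with h | h | ⟨y, hy0, hys, hR, h⟩
  · exact le_max_of_le_left h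
  · exact le_max_of_le_right h
  · apply le_max_of_le_right
    refine h.trans ?_
    have hrad : 0 ≤ dl m c * ((1 - c) - dl m c / m) := by
      rw [rad_eq m c (by omega)]
      have : dl m c ≤ m := by
        have : (1 : ℝ) / m ≤ m := by
          rw [div_le_iff₀ (by linarith)]
          nlinarith
        linarith
      have : 0 ≤ (m : ℝ) - dl m c := by linarith
      positivity
    have hR2 : (hubR m c y) ^ 2 = (1 - c) * dl m c - ∑ i, y i ^ 2 := by
      unfold hubR dl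
      apply Real.sq_sqrt
      by_contra hneg
      unfold hubR at hR
      rw [Real.sqrt_eq_zero_of_nonpos (by linarith)] at hR
      exact lt_irrefl _ hR
    have := Pool.Agent.Work.MP_1ce445_hub3.HBM m (1 - c) (dl m c) (hubR m c y) (rm m c) y hd0 (dl_D m c) hy0 hys
      hR hR2 (Real.sqrt_nonneg _) (Real.sq_sqrt hrad) (by
        rcases hT with ⟨h, -⟩ | h | h
        · omega
        · exact Or.inl ⟨h.1, by linarith [h.2]⟩
        · exact Or.inr ⟨h.1, hd1, h.2⟩)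
    have e : (1 : ℝ) - (1 - c) = c := by ring
    rw [e] at this
    exact mul_le_mul_of_nonneg_left this hc0.le

/-- the upper bound on the whole window -/
theorem up_all (hFW : Stmt_FW) (hC : Stmt_CNT) (hU : Stmt_REDW) (m : ℕ) (c : ℝ) (hm : 3 ≤ m)
    (h1 : 1 - 1 / (m : ℝ) ≤ c) (h2 : c < 1 - 1 / ((m : ℝ) + 1)) :
    FF c ≤ max ((1 - 1 / (m : ℝ)) ^ m) (hubSym m c) := by
  obtain ⟨hc0, hc1, hd0, hd1⟩ := win_bounds m c (by omega) h1 h2
  have hm' : (3 : ℝ) ≤ m := by exact_mod_cast hm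
  have hm0 : (0 : ℝ) < m := by linarith
  by_cases hT : Thr m c
  · exact up_direct hFW hU m c hm h1 h2 hT
  apply le_max_of_le_left
  -- the threshold value of the overlap
  obtain ⟨δ0, hδ0, hδ1, hδ2⟩ : ∃ δ0 : ℝ, 0 < δ0 ∧ δ0 ≤ dl m c ∧
      ((m = 3 ∧ δ0 = 97 / 10000) ∨ (4 ≤ m ∧ δ0 * (m - δ0) / (m * (m + 1)) = (1 / (2 * (m : ℝ) ^ 2)) ^ 2)) := by
    rcases Nat.lt_or_ge 3 m with h4 | h4
    · have hr : 1 / (2 * (m : ℝ) ^ 2) < rm m c := by
        by_contra hle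
        exact hT (Or.inr (Or.inr ⟨h4, not_lt.1 hle⟩))
      have hsq : (1 / (2 * (m : ℝ) ^ 2)) ^ 2 < dl m c * (m - dl m c) / (m * (m + 1)) := by
        rw [← rad_eq m c (by omega)]
        exact (Real.lt_sqrt (by positivity)).1 hr
      have hcont : ContinuousOn (fun x : ℝ => x * (m - x) / (m * (m + 1))) (Set.Icc 0 (dl m c)) := by
        fun_prop
      have hmem : (1 / (2 * (m : ℝ) ^ 2)) ^ 2 ∈ Set.Icc ((fun x : ℝ => x * (m - x) / (m * (m + 1))) 0)
          ((fun x : ℝ => x * (m - x) / (m * (m + 1))) (dl m c)) := by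
        constructor
        · simp only [zero_mul, zero_div]
          positivity
        · exact hsq.le
      obtain ⟨δ0, ⟨ha, hb⟩, hδ⟩ := intermediate_value_Icc hd0.le hcont hmem
      simp only at hδ
      refine ⟨δ0, ?_, hb, Or.inr ⟨h4, hδ⟩⟩
      rcases ha.lt_or_eq with h | h
      · exact h
      · exfalso
        rw [← h] at hδ
        simp only [zero_mul, zero_div] at hδ
        have : (0 : ℝ) < (1 / (2 * (m : ℝ) ^ 2)) ^ 2 := by positivity
        linarith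
    · have h3 : m = 3 := by omega
      refine ⟨97 / 10000, by norm_num, ?_, Or.inl ⟨h3, rfl⟩⟩
      by_contra hlt
      exact hT (Or.inr (Or.inl ⟨h3, (not_le.1 hlt).le⟩))
  -- the point c0
  set c0 : ℝ := (m - δ0) / (m + 1) with hc0def
  have hne : (m : ℝ) + 1 ≠ 0 := by positivity
  have hdl0 : dl m c0 = δ0 := by
    unfold dl
    rw [hc0def]
    field_simp
    ring
  have hcc0 : c ≤ c0 := by
    have := dl_D m c
    have e : c = 1 - (1 + dl m c) / (m + 1) := by linarith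
    rw [e, hc0def, one_sub_div hne]
    apply div_le_div_of_nonneg_right _ (by positivity)
    linarith
  have hc02 : c0 < 1 - 1 / ((m : ℝ) + 1) := by
    rw [hc0def, one_sub_div hne]
    apply div_lt_div_of_pos_right _ (by positivity)
    linarith
  have hc0p : 0 < c0 := lt_of_lt_of_le hc0 hcc0
  have hc01 : c0 < 1 := by
    have : (0 : ℝ) < 1 / ((m : ℝ) + 1) := by positivity
    linarith
  have hm3 : δ0 ≤ 1 / m := hδ1.trans hd1
  have hinv : (1 : ℝ) / m ≤ 1 / 3 := by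
    apply one_div_le_one_div_of_le <;> linarith
  have hrad : dl m c0 * ((1 - c0) - dl m c0 / m) = δ0 * (m - δ0) / (m * (m + 1)) := by
    rw [rad_eq m c0 (by omega), hdl0]
  have hrad0 : 0 ≤ δ0 * (m - δ0) / (m * (m + 1)) := by
    have : 0 ≤ (m : ℝ) - δ0 := by linarith
    positivity
  have hr2 : (rm m c0) ^ 2 = δ0 * (m - δ0) / (m * (m + 1)) := by
    unfold rm
    rw [Real.sq_sqrt (by rw [hrad]; exact hrad0), hrad]
  have hT0 : Thr m c0 := by
    rcases hδ2 with ⟨h3, h⟩ | ⟨h4, h⟩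
    · exact Or.inr (Or.inl ⟨h3, by rw [hdl0, h]⟩)
    · refine Or.inr (Or.inr ⟨h4, ?_⟩)
      rw [h] at hr2
      exact (pow_le_pow_iff_left₀ (Real.sqrt_nonneg _) (by positivity) two_ne_zero).1 hr2.le
  have hmono : FF c ≤ FF c0 := hC.1 ⟨hc0, hc1⟩ ⟨hc0p, hc01⟩ hcc0
  have hdir := up_direct hFW hU m c0 hm (h1.trans hcc0) hc02 hT0
  refine hmono.trans (hdir.trans (max_le le_rfl ?_))
  rcases hδ2 with ⟨h3, h⟩ | ⟨h4, h⟩
  · -- `m = 3`: a numerical check at the threshold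
    subst h3
    have ec : c0 = 29903 / 40000 := by
      rw [hc0def, h]; norm_num
    have hr : (4916 / 100000 : ℝ) ≤ √(97 / 10000 * (1 - 29903 / 40000 - 97 / 10000 / 3)) := by
      apply Real.le_sqrt_of_sq_le
      norm_num
    have e1 : (((3 : ℕ) : ℝ) + 1) * (1 - 29903 / 40000) - 1 = 97 / 10000 := by norm_num
    have e2 : ((3 : ℕ) : ℝ) = 3 := by norm_num
    unfold hubSym
    rw [ec, e1, e2]
    set s := √(97 / 10000 * (1 - 29903 / 40000 - 97 / 10000 / 3)) with hs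
    have hs1 : s ≤ 1 := by
      rw [hs]
      apply Real.sqrt_le_one.mpr
      norm_num
    have hb0 : (0 : ℝ) ≤ 29903 / 40000 - (s - 97 / 10000) / 3 := by linarith
    have hb1 : (29903 / 40000 : ℝ) - (s - 97 / 10000) / 3 ≤ 29903 / 40000 - (4916 / 100000 - 97 / 10000) / 3 := by
      linarith
    have h5 := pow_le_pow_left₀ hb0 hb1 3
    have h6 : (29903 / 40000 : ℝ) * (29903 / 40000 - (4916 / 100000 - 97 / 10000) / 3) ^ 3 ≤ (1 - 1 / 3) ^ 3 := by
      norm_num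
    exact le_trans (mul_le_mul_of_nonneg_left h5 (by norm_num)) h6
  have hpla := Pool.Agent.Work.MP_1ce445_hub3.PLA m (1 - c0) δ0 (rm m c0) hδ0.le hm3 (by rw [dl_D m c0, hdl0])
    (Real.sqrt_nonneg _) (by unfold rm; rw [Real.sq_sqrt (by rw [hrad]; exact hrad0), hdl0]) (by
      refine Or.inr ⟨h4, ?_⟩
      rw [h] at hr2
      exact (pow_le_pow_iff_left₀ (by positivity) (Real.sqrt_nonneg _) two_ne_zero).1 hr2.ge)
  have e : (1 : ℝ) - (1 - c0) = c0 := by ring
  rw [e, ← hdl0] at hpla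
  exact hpla

/-- the lower bound on the whole window -/
theorem low_all (hVAL : Stmt_VAL) (hEQM : Stmt_EQM) (hSCL : Stmt_SCL) (hH2 : Stmt_HUB2)
    (m : ℕ) (c : ℝ) (hm : 3 ≤ m)
    (h1 : 1 - 1 / (m : ℝ) ≤ c) (h2 : c < 1 - 1 / ((m : ℝ) + 1)) :
    max ((1 - 1 / (m : ℝ)) ^ m) (hubSym m c) ≤ FF c := by
  obtain ⟨hc0, hc1, hd0, hd1⟩ := win_bounds m c (by omega) h1 h2
  have hm' : (3 : ℝ) ≤ m := by exact_mod_cast hm
  have hm0 : (0 : ℝ) < m := by linarith
  have hbase := base_le hVAL hEQM hSCL m c (by omega) h1 hc1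
  refine max_le hbase ?_
  have hrad0 : 0 ≤ dl m c * (m - dl m c) / (m * (m + 1)) := by
    have h3 : (1 : ℝ) / m ≤ m := by
      rw [div_le_iff₀ (by linarith)]
      nlinarith
    have : 0 ≤ (m : ℝ) - dl m c := by linarith
    positivity
  by_cases hsm : dl m c ≤ (1 - c) / 2
  · have hv := hH2 m (1 - c) (by omega) (by linarith) hd0 hsm
    have e : (1 - (1 - c)) * (1 - (1 - c) - (√((((m : ℝ) + 1) * (1 - c) - 1) * (1 - c) -
        (((m : ℝ) + 1) * (1 - c) - 1) ^ 2 / m) - (((m : ℝ) + 1) * (1 - c) - 1)) / m) ^ m = hubSym m c := by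
      unfold hubSym
      have e1 : (((m : ℝ) + 1) * (1 - c) - 1) * (1 - c) - (((m : ℝ) + 1) * (1 - c) - 1) ^ 2 / m
          = (((m : ℝ) + 1) * (1 - c) - 1) * (1 - c - (((m : ℝ) + 1) * (1 - c) - 1) / m) := by
        ring
      have e2 : (1 : ℝ) - (1 - c) = c := by ring
      rw [e1, e2]
    rw [e] at hv
    unfold FF
    exact le_csSup ⟨1, fun w hw => (hVAL _ _ hw).2⟩ hv
  · refine le_trans ?_ hbase
    push Not at hsm
    have hD : 1 / ((m : ℝ) + 1) < 1 - c := by linarith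
    have hdlow : 1 / (2 * ((m : ℝ) + 1)) < dl m c := by
      have : 1 / (2 * ((m : ℝ) + 1)) = (1 / ((m : ℝ) + 1)) / 2 := by
        field_simp
      rw [this]
      linarith
    have hinv : (1 : ℝ) / m ≤ 1 / 3 := by
      apply one_div_le_one_div_of_le <;> linarith
    have hpla := Pool.Agent.Work.MP_1ce445_hub3.PLA m (1 - c) (dl m c) (rm m c) hd0.le hd1 (dl_D m c)
      (Real.sqrt_nonneg _) (by unfold rm; rw [Real.sq_sqrt (by rw [rad_eq m c (by omega)]; exact hrad0)]) (by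
        rcases Nat.lt_or_ge 3 m with h4 | h4
        · refine Or.inr ⟨h4, ?_⟩
          unfold rm
          apply Real.le_sqrt_of_sq_le
          rw [rad_eq m c (by omega)]
          have h5 : (4 : ℝ) ≤ m := by exact_mod_cast h4
          rw [le_div_iff₀ (by positivity)]
          have h6 : (1 / (2 * (m : ℝ) ^ 2)) ^ 2 * (m * (m + 1)) = (m + 1) / (4 * m ^ 3) := by
            field_simp
            ring
          rw [h6]
          have h7 : (1 / (2 * ((m : ℝ) + 1))) * (m - 1 / 3) ≤ dl m c * (m - dl m c) := by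
            apply mul_le_mul hdlow.le _ _ hd0.le
            · linarith
            · linarith
          refine le_trans ?_ h7
          rw [div_mul_eq_mul_div, div_le_div_iff₀ (by positivity) (by positivity)]
          nlinarith [mul_nonneg hm0.le hm0.le, mul_nonneg (mul_nonneg hm0.le hm0.le) hm0.le,
            mul_nonneg (sub_nonneg.2 h5) (mul_nonneg (mul_nonneg hm0.le hm0.le) hm0.le),
            mul_nonneg (sub_nonneg.2 h5) (mul_nonneg hm0.le hm0.le), mul_nonneg (sub_nonneg.2 h5) hm0.le]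
        · have h3 : m = 3 := by omega
          subst h3
          refine Or.inl ⟨rfl, ?_⟩
          norm_num at hdlow
          linarith)
    have e : (1 : ℝ) - (1 - c) = c := by ring
    rw [e] at hpla
    exact hpla

/-- the exact value on the windows `m ≥ 3` -/
theorem win3 (hVAL : Stmt_VAL) (hEQM : Stmt_EQM) (hSCL : Stmt_SCL) (hH2 : Stmt_HUB2) (hC : Stmt_CNT)
    (hFW : Stmt_FW) (hU : Stmt_REDW) (m : ℕ) (c : ℝ) (hm : 3 ≤ m)
    (h1 : 1 - 1 / (m : ℝ) ≤ c) (h2 : c < 1 - 1 / ((m : ℝ) + 1)) :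
    FF c = max ((1 - 1 / (m : ℝ)) ^ m) (hubSym m c) :=
  le_antisymm (up_all hFW hC hU m c hm h1 h2) (low_all hVAL hEQM hSCL hH2 m c hm h1 h2)

end Pool.Agent.Work.MP_1ce445_winu
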